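import Pool.Agent.Lib_helper53.MET.Base

set_option autoImplicit false

/-! Block R3m of project MET (MP_760942_al): the model of the module of a matrix. -/

namespace Pool.Agent.MET

theorem r3m_eta {k : ℕ} (w : Fin (k + 2) → ℤ) :
    fr (w 0) (w 1) (fun i => w i.succ.succ) = w := by
  funext i
  refine Fin.cases rfl (fun i => ?_) i
  refine Fin.cases rfl (fun i => ?_) i
  rfl

theorem r3m_add {k : ℕ} (a b a' b' : ℤ) (v v' : Fin k → ℤ) :
    fr (a + a') (b + b') (v + v') = fr a b v + fr a' b' v' := by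
  funext i
  refine Fin.cases rfl (fun i => ?_) i
  refine Fin.cases rfl (fun i => ?_) i
  rfl

theorem r3m_zero {k : ℕ} : fr 0 0 (0 : Fin k → ℤ) = 0 := by
  funext i
  refine Fin.cases rfl (fun i => ?_) i
  refine Fin.cases rfl (fun i => ?_) i
  rfl

theorem r3m_smul {k : ℕ} (n : ℤ) (a b : ℤ) (v : Fin k → ℤ) :
    n • fr a b v = fr (n * a) (n * b) (n • v) := by
  funext i
  refine Fin.cases rfl (fun i => ?_) i
  refine Fin.cases rfl (fun i => ?_) i
  rfl

theorem r3m_mon0 (k : ℕ) : mon (k + 2) [(0, true)] = fr 1 0 (0 : Fin k → ℤ) := by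
  funext i
  refine Fin.cases (by simp [mon, fr]) (fun i => ?_) i
  refine Fin.cases (by simp [mon, fr]) (fun i => ?_) i
  simp [mon, fr]

theorem r3m_mon1 (k : ℕ) : mon (k + 2) [(1, true)] = fr 0 1 (0 : Fin k → ℤ) := by
  funext i
  refine Fin.cases (by simp [mon, fr]) (fun i => ?_) i
  refine Fin.cases (by simp [mon, fr]) (fun i => ?_) i
  simp [mon, fr]

theorem r3m_sh (k : ℕ) (w : Word) : mon (k + 2) (sh 2 w) = fr 0 0 (mon k w) := by
  induction w with
  | nil =>
    rw [mon_nil, r3m_zero]
    rfl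
  | cons p w ih =>
    have h1 : sh 2 (p :: w) = [(p.1 + 2, p.2)] ++ sh 2 w := rfl
    rw [h1, mon_append, ih, mon_cons k p w]
    have h2 : mon (k + 2) [(p.1 + 2, p.2)] = fr 0 0 (mon k [p]) := by
      funext i
      refine Fin.cases (by simp [mon, fr]) (fun i => ?_) i
      refine Fin.cases (by simp [mon, fr]) (fun i => ?_) i
      simp [mon, fr]
    rw [h2, ← r3m_add]
    simp

/-- the inclusion of the coefficients -/
noncomputable def r3m_io (k : ℕ) : L k →+* L (k + 2) :=
  AddMonoidAlgebra.mapDomainRingHom ℤ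
    (AddMonoidHom.mk' (fun v : Fin k → ℤ => fr 0 0 v) fun v w => by
      rw [← r3m_add]; simp)

theorem r3m_io_xp {k : ℕ} (v : Fin k → ℤ) : r3m_io k (xp v) = xp (fr 0 0 v) := by
  simp [r3m_io, xp]

theorem r3m_fix {k : ℕ} {N : Type*} [AddCommGroup N] [Module (L k) N] (u : Fin k → ℤ) (z : N)
    (h : (xp u : L k) • z = z) (a : ℤ) : (xp (a • u) : L k) • z = z := by
  have hn : (xp (-u) : L k) • z = z := by
    conv_lhs => rw [← h]
    rw [smul_smul, ← xp_add, neg_add_cancel, xp_zero, one_smul]
  induction a using Int.induction_on with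
  | zero => rw [zero_smul, xp_zero, one_smul]
  | succ n ih => rw [add_smul, one_smul, xp_add, mul_smul, h, ih]
  | pred n ih => rw [sub_smul, one_smul, sub_eq_add_neg, xp_add, mul_smul, hn, ih]

theorem r3m_unip {k : ℕ} {N : Type*} [AddCommGroup N] [Module (L k) N] (u : Fin k → ℤ) (x z : N)
    (h1 : (xp u : L k) • x = x + z) (h : (xp u : L k) • z = z) (a : ℤ) :
    (xp (a • u) : L k) • x = x + a • z := by
  have hnz : (xp (-u) : L k) • z = z := by
    have := r3m_fix u z h (-1)
    rwa [neg_smul, one_smul] at this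
  have hn : (xp (-u) : L k) • x = x - z := by
    have h2 : (xp (-u) : L k) • ((xp u : L k) • x) = x := by
      rw [smul_smul, ← xp_add, neg_add_cancel, xp_zero, one_smul]
    rw [h1, smul_add, hnz] at h2
    exact eq_sub_of_add_eq h2
  induction a using Int.induction_on with
  | zero => rw [zero_smul, xp_zero, one_smul, zero_smul, add_zero]
  | succ n ih =>
    rw [add_smul, one_smul, xp_add, mul_smul, h1, smul_add, ih, r3m_fix u z h, add_smul, one_smul,
      add_assoc]
  | pred n ih =>
    rw [sub_smul, one_smul, sub_eq_add_neg, xp_add, mul_smul, hn, smul_sub, ih, r3m_fix u z h,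
      sub_smul, one_smul, add_sub_assoc]

/-- the action on the model -/
noncomputable def r3m_act (k m : ℕ) (B : Matrix (Fin m) (Fin m) (L k)) (w : Fin (k + 2) → ℤ) :
    (Fin m → L k) × (Fin m → L k) →+ (Fin m → L k) × (Fin m → L k) :=
  AddMonoidHom.mk' (fun n => ((xp fun i => w i.succ.succ : L k) • n.1,
      (xp fun i => w i.succ.succ : L k) • (n.2 + w 0 • n.1 + w 1 • B.mulVec n.1))) fun n n' => by
    refine Prod.ext ?_ ?_
    · simp
    · simp only [Prod.fst_add, Prod.snd_add, Matrix.mulVec_add, smul_add]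
      abel

theorem r3m_act_zero (k m : ℕ) (B : Matrix (Fin m) (Fin m) (L k))
    (x : (Fin m → L k) × (Fin m → L k)) : r3m_act k m B 0 x = x := by
  refine Prod.ext ?_ ?_
  · change (xp (0 : Fin k → ℤ) : L k) • x.1 = x.1
    rw [xp_zero, one_smul]
  · change (xp (0 : Fin k → ℤ) : L k) • (x.2 + (0 : ℤ) • x.1 + (0 : ℤ) • B.mulVec x.1) = x.2
    rw [xp_zero, one_smul, zero_smul, zero_smul, add_zero, add_zero]

theorem r3m_act_add (k m : ℕ) (B : Matrix (Fin m) (Fin m) (L k)) (v w : Fin (k + 2) → ℤ)
    (x : (Fin m → L k) × (Fin m → L k)) :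
    r3m_act k m B (v + w) x = r3m_act k m B v (r3m_act k m B w x) := by
  have hx : (xp fun i : Fin k => (v + w) i.succ.succ : L k) =
      (xp fun i => v i.succ.succ) * xp fun i => w i.succ.succ := by
    rw [← xp_add]
    rfl
  refine Prod.ext ?_ ?_
  · change (xp fun i : Fin k => (v + w) i.succ.succ : L k) • x.1 =
      (xp fun i => v i.succ.succ : L k) • ((xp fun i => w i.succ.succ : L k) • x.1)
    rw [hx, mul_smul]
  · change (xp fun i : Fin k => (v + w) i.succ.succ : L k) •
        (x.2 + (v + w) 0 • x.1 + (v + w) 1 • B.mulVec x.1) =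
      (xp fun i => v i.succ.succ : L k) • ((xp fun i => w i.succ.succ : L k) •
        (x.2 + w 0 • x.1 + w 1 • B.mulVec x.1) +
        v 0 • ((xp fun i => w i.succ.succ : L k) • x.1) +
        v 1 • B.mulVec ((xp fun i => w i.succ.succ : L k) • x.1))
    rw [hx, mul_smul, Matrix.mulVec_smul, smul_comm (v 0) (xp fun i => w i.succ.succ : L k),
      smul_comm (v 1) (xp fun i => w i.succ.succ : L k), ← smul_add, ← smul_add]
    congr 2
    rw [Pi.add_apply, Pi.add_apply, add_smul, add_smul]
    abel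

/-- the generators of the model -/
noncomputable def r3m_be (k m : ℕ) (i : ℕ) : (Fin m → L k) × (Fin m → L k) :=
  if h : i / 2 < m then
    (if i % 2 = 0 then (Pi.single ⟨i / 2, h⟩ 1, 0) else (0, Pi.single ⟨i / 2, h⟩ 1)) else 0

theorem r3m_be0 (k m i : ℕ) (h : i < m) : r3m_be k m (2 * i) = (Pi.single ⟨i, h⟩ 1, 0) := by
  have h1 : 2 * i / 2 = i := by omega
  have h2 : 2 * i % 2 = 0 := by omega
  unfold r3m_be
  rw [dif_pos (by omega), if_pos h2]
  simp only [h1]

theorem r3m_be1 (k m i : ℕ) (h : i < m) : r3m_be k m (2 * i + 1) = (0, Pi.single ⟨i, h⟩ 1) := by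
  have h1 : (2 * i + 1) / 2 = i := by omega
  have h2 : ¬ (2 * i + 1) % 2 = 0 := by omega
  unfold r3m_be
  rw [dif_pos (by omega), if_neg h2]
  simp only [h1]

theorem r3m_act_S (k m : ℕ) (B : Matrix (Fin m) (Fin m) (L k)) (a b : ℤ) (v : Fin k → ℤ)
    (s : Fin m → L k) : r3m_act k m B (fr a b v) (0, s) = (0, (xp v : L k) • s) := by
  refine Prod.ext ?_ ?_
  · change (xp v : L k) • (0 : Fin m → L k) = 0
    rw [smul_zero]
  · change (xp v : L k) • (s + a • (0 : Fin m → L k) + b • B.mulVec 0) = (xp v : L k) • s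
    rw [Matrix.mulVec_zero, smul_zero, smul_zero, add_zero, add_zero]

theorem r3m_act_P (k m : ℕ) (B : Matrix (Fin m) (Fin m) (L k)) (a b : ℤ) (v : Fin k → ℤ)
    (p : Fin m → L k) : r3m_act k m B (fr a b v) (p, 0) =
      ((xp v : L k) • p, (xp v : L k) • (a • p + b • B.mulVec p)) := by
  refine Prod.ext rfl ?_
  change (xp v : L k) • (0 + a • p + b • B.mulVec p) = (xp v : L k) • (a • p + b • B.mulVec p)
  rw [zero_add]

/-- a column of the matrix as a sum over its entries -/
theorem r3m_col {k m : ℕ} (A : Ent) (i : Fin m) {V : Type*} [AddCommGroup V] [Module (L k) V]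
    (g : Fin m → V) :
    ∑ j : Fin m, mat k m A j i • g j =
      (A.map fun e => if h : e.1 < m then (if e.2.1 = (i : ℕ) then
        sg e.2.2.1 • ((xp (mon k e.2.2.2) : L k) • g ⟨e.1, h⟩) else 0) else 0).sum := by
  induction A with
  | nil => simp [mat]
  | cons e A ih =>
    have h1 : ∀ j : Fin m, mat k m (e :: A) j i =
        (if e.1 = (j : ℕ) ∧ e.2.1 = (i : ℕ) then sg e.2.2.1 • xp (mon k e.2.2.2) else 0) +
          mat k m A j i := fun j => by simp [mat]
    simp only [h1, add_smul, Finset.sum_add_distrib, List.map_cons, List.sum_cons, ih]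
    congr 1
    by_cases h : e.1 < m
    · rw [dif_pos h]
      by_cases h2 : e.2.1 = (i : ℕ)
      · rw [if_pos h2, Finset.sum_eq_single (⟨e.1, h⟩ : Fin m)]
        · rw [if_pos ⟨rfl, h2⟩, smul_assoc]
        · intro j _ hj
          rw [if_neg, zero_smul]
          rintro ⟨h3, -⟩
          exact hj (Fin.ext h3.symm)
        · intro h3
          exact absurd (Finset.mem_univ _) h3
      · rw [if_neg h2]
        refine Finset.sum_eq_zero fun j _ => ?_
        rw [if_neg, zero_smul]
        rintro ⟨-, h3⟩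
        exact h2 h3
    · rw [dif_neg h]
      refine Finset.sum_eq_zero fun j _ => ?_
      rw [if_neg, zero_smul]
      rintro ⟨h3, -⟩
      exact h (h3 ▸ j.2)

theorem r3m_flat {k m : ℕ} {V : Type*} [AddCommGroup V] [Module (L k) V] (A : Ent) (i : ℕ)
    (T : Term → V) (g : Fin m → V)
    (hT : ∀ (e1 : ℕ) (s : Bool) (w : Word), T (2 * e1 + 1, !s, sh 2 w) =
      -(if h : e1 < m then sg s • ((xp (mon k w) : L k) • g ⟨e1, h⟩) else 0)) :
    ((A.flatMap fun e => if e.2.1 = i then
      [((2 * e.1 + 1, !e.2.2.1, sh 2 e.2.2.2) : Term)] else []).map T).sum =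
      -(A.map fun e => if h : e.1 < m then (if e.2.1 = i then
        sg e.2.2.1 • ((xp (mon k e.2.2.2) : L k) • g ⟨e.1, h⟩) else 0) else 0).sum := by
  induction A with
  | nil => simp
  | cons e A ih =>
    rw [List.flatMap_cons, List.map_append, List.sum_append, ih, List.map_cons, List.sum_cons,
      neg_add]
    congr 1
    by_cases h2 : e.2.1 = i
    · rw [if_pos h2, List.map_cons, List.map_nil, List.sum_cons, List.sum_nil, add_zero, hT]
      simp only [if_pos h2]
    · rw [if_neg h2]
      simp only [if_neg h2]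
      simp

theorem r3m_sgn (s : Bool) : sg (!s) = -sg s := by
  cases s <;> simp [sg]

/-- the relations hold in the model -/
theorem r3m_rel (k m : ℕ) (A : Ent) (r : Rel) (hr : r ∈ (simFr k m A).2.2) :
    ev (r3m_act k m (mat k m A)) (2 * m) (r3m_be k m) r = 0 := by
  have h0 := r3m_act_zero k m (mat k m A)
  simp only [simFr, List.mem_append, List.mem_map, List.mem_range] at hr
  rcases hr with ((⟨i, hi, rfl⟩ | ⟨i, hi, rfl⟩) | ⟨i, hi, rfl⟩) | ⟨i, hi, rfl⟩
  · have h1 : 2 * i < 2 * m := by omega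
    have h2 : 2 * i + 1 < 2 * m := by omega
    simp only [ev, List.map_cons, List.map_nil, List.sum_cons, List.sum_nil, if_pos h1, if_pos h2,
      mon_nil, h0, r3m_mon0, r3m_be0 k m i hi, r3m_be1 k m i hi, r3m_act_P, xp_zero, one_smul]
    refine Prod.ext ?_ ?_
    · simp [sg]
    · simp [sg]
  · rw [ev_eqn _ _ h0 _ _ _ (by omega), r3m_mon0, r3m_be1 k m i hi, r3m_act_S, xp_zero, one_smul,
      one_smul, sub_self]
  · have h1 : 2 * i < 2 * m := by omega
    unfold ev
    rw [List.map_append, List.sum_append, r3m_flat (k := k) (m := m) A i _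
      (fun j => ((0 : Fin m → L k), (Pi.single j 1 : Fin m → L k)))]
    · have h5 : ∑ j : Fin m, mat k m A j ⟨i, hi⟩ • ((0 : Fin m → L k), (Pi.single j 1 : Fin m → L k)) =
          (A.map fun e => if h : e.1 < m then (if e.2.1 = i then
            sg e.2.2.1 • ((xp (mon k e.2.2.2) : L k) •
              ((0 : Fin m → L k), (Pi.single (⟨e.1, h⟩ : Fin m) 1 : Fin m → L k))) else 0)
            else 0).sum :=
        r3m_col A (⟨i, hi⟩ : Fin m) _
      rw [← h5]
      simp only [List.map_cons, List.map_nil, List.sum_cons, List.sum_nil, if_pos h1,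
        mon_nil, h0, r3m_mon1, r3m_be0 k m i hi, r3m_act_P, xp_zero, one_smul, zero_smul, zero_add]
      refine Prod.ext ?_ ?_
      · simp [sg, Prod.fst_sum]
      · have h3 : (∑ j : Fin m, mat k m A j ⟨i, hi⟩ • (Pi.single j 1 : Fin m → L k)) =
            (mat k m A).mulVec (Pi.single ⟨i, hi⟩ 1) := by
          funext j
          simp [Finset.sum_apply, Pi.single_apply, Matrix.mulVec_single]
        simp only [Prod.snd_add, Prod.snd_neg, Prod.snd_sum, Prod.smul_snd, Prod.snd_zero, h3]
        simp [sg]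
    · intro e1 s w
      by_cases h : e1 < m
      · rw [dif_pos h]
        simp only
        rw [if_pos (by omega), r3m_sh, r3m_be1 k m e1 h, r3m_act_S, r3m_sgn, neg_smul]
        refine congrArg Neg.neg ?_
        refine Prod.ext ?_ rfl
        simp
      · rw [dif_neg h]
        simp only
        rw [if_neg (by omega), neg_zero]
  · rw [ev_eqn _ _ h0 _ _ _ (by omega), r3m_mon1, r3m_be1 k m i hi, r3m_act_S, xp_zero, one_smul,
      one_smul, sub_self]

/-- R3m: model of the module of a matrix -/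
theorem simFr_model (k m : ℕ) (A : Ent) :
    ∃ Φ : PM (k + 2) (2 * m) (simFr k m A).2.2 ≃+ (Fin m → L k) × (Fin m → L k),
      ∀ (a b : ℤ) (v : Fin k → ℤ) (n : PM (k + 2) (2 * m) (simFr k m A).2.2), Φ (xp (fr a b v) • n) =
        ((xp v : L k) • (Φ n).1,
         (xp v : L k) • ((Φ n).2 + a • (Φ n).1 + b • (mat k m A).mulVec (Φ n).1)) := by
  classical
  set R := (simFr k m A).2.2 with hRdef
  obtain ⟨f, hf1, hf2⟩ := up (k := k + 2) (b := 2 * m) (R := R) (r3m_act k m (mat k m A))
    (r3m_act_zero k m _) (r3m_act_add k m _) (r3m_be k m) (r3m_rel k m A)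
  let inst : Module (L k) (PM (k + 2) (2 * m) R) := Module.compHom _ (r3m_io k)
  have hs : ∀ (a : L k) (n : PM (k + 2) (2 * m) R), a • n = r3m_io k a • n := fun a n => rfl
  have hsx : ∀ (v : Fin k → ℤ) (n : PM (k + 2) (2 * m) R),
      (xp v : L k) • n = (xp (fr 0 0 v) : L (k + 2)) • n := fun v n => by rw [hs, r3m_io_xp]
  have hcomm : ∀ (a : L k) (c : L (k + 2)) (n : PM (k + 2) (2 * m) R),
      c • (a • n) = a • (c • n) := fun a c n => by
    rw [hs, hs, smul_smul, smul_smul, mul_comm c (r3m_io k a)]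
  -- relations
  let p : Fin m → PM (k + 2) (2 * m) R := fun i => gen (2 * i)
  let s : Fin m → PM (k + 2) (2 * m) R := fun i => gen (2 * i + 1)
  have y1P : ∀ i : Fin m, (xp (fr 1 0 0) : L (k + 2)) • p i = p i + s i := by
    intro i
    have h1 : [((2 * (i : ℕ), true, [(0, true)]) : Term), (2 * i, false, []),
        (2 * i + 1, false, [])] ∈ R := by
      rw [hRdef]
      simp only [simFr, List.mem_append, List.mem_map, List.mem_range]
      exact Or.inl (Or.inl (Or.inl ⟨i, i.2, rfl⟩))
    have h2 := pm_rel (k := k + 2) (b := 2 * m) _ h1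
    simp only [List.map_cons, List.map_nil, List.sum_cons, List.sum_nil, r3m_mon0, mon_nil,
      xp_zero, one_smul, sg, if_true, Bool.false_eq_true, if_false, neg_smul, add_zero] at h2
    rw [← sub_eq_zero, ← h2]
    simp only [p, s]
    abel
  have y1S : ∀ i : Fin m, (xp (fr 1 0 0) : L (k + 2)) • s i = s i := by
    intro i
    have h1 : eqn 0 (2 * i + 1) 1 ∈ R := by
      rw [hRdef]
      simp only [simFr, List.mem_append, List.mem_map, List.mem_range]
      exact Or.inl (Or.inl (Or.inr ⟨i, i.2, rfl⟩))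
    have h2 := pm_eqn (k := k + 2) (b := 2 * m) 0 (2 * i + 1) 1 h1
    rw [r3m_mon0, one_smul] at h2
    exact h2
  have y2S : ∀ i : Fin m, (xp (fr 0 1 0) : L (k + 2)) • s i = s i := by
    intro i
    have h1 : eqn 1 (2 * i + 1) 1 ∈ R := by
      rw [hRdef]
      simp only [simFr, List.mem_append, List.mem_map, List.mem_range]
      exact Or.inr ⟨i, i.2, rfl⟩
    have h2 := pm_eqn (k := k + 2) (b := 2 * m) 1 (2 * i + 1) 1 h1
    rw [r3m_mon1, one_smul] at h2
    exact h2
  let gP : (Fin m → L k) →ₗ[L k] PM (k + 2) (2 * m) R := Fintype.linearCombination (L k) p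
  let gS : (Fin m → L k) →ₗ[L k] PM (k + 2) (2 * m) R := Fintype.linearCombination (L k) s
  have hgP : ∀ i : Fin m, gP (Pi.single i 1) = p i := fun i => by
    simp [gP, Fintype.linearCombination_apply_single]
  have hgS : ∀ i : Fin m, gS (Pi.single i 1) = s i := fun i => by
    simp [gS, Fintype.linearCombination_apply_single]
  have y2P : ∀ i : Fin m, (xp (fr 0 1 0) : L (k + 2)) • p i =
      p i + gS ((mat k m A).mulVec (Pi.single i 1)) := by
    intro i
    have h1 : ([((2 * (i : ℕ), true, [(1, true)]) : Term), (2 * i, false, [])] ++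
        A.flatMap fun e => if e.2.1 = (i : ℕ) then
          [((2 * e.1 + 1, !e.2.2.1, sh 2 e.2.2.2) : Term)] else []) ∈ R := by
      rw [hRdef]
      simp only [simFr, List.mem_append, List.mem_map, List.mem_range]
      exact Or.inl (Or.inr ⟨i, i.2, rfl⟩)
    have h2 := pm_rel (k := k + 2) (b := 2 * m) _ h1
    rw [List.map_append, List.sum_append, r3m_flat (k := k) (m := m) A i _ s] at h2
    · rw [← r3m_col A i] at h2
      simp only [List.map_cons, List.map_nil, List.sum_cons, List.sum_nil, r3m_mon1, mon_nil,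
        xp_zero, one_smul, sg, if_true, Bool.false_eq_true, if_false, neg_smul, add_zero] at h2
      have h3 : gS ((mat k m A).mulVec (Pi.single i 1)) = ∑ j : Fin m, mat k m A j i • s j := by
        simp only [gS, Fintype.linearCombination_apply, Matrix.mulVec_single_one]
        rfl
      rw [h3, ← sub_eq_zero, ← h2]
      simp only [p]
      abel
    · intro e1 sgn w
      by_cases h : e1 < m
      · rw [dif_pos h]
        simp only
        rw [r3m_sh, r3m_sgn, neg_smul, ← hsx]
      · rw [dif_neg h]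
        simp only
        rw [gen_of_le (by omega), smul_zero, smul_zero, neg_zero]
  have y1C : ∀ (u : Fin (k + 2) → ℤ) (h : ∀ i, (xp u : L (k + 2)) • s i = s i) (x : Fin m → L k),
      (xp u : L (k + 2)) • gS x = gS x := by
    intro u h x
    simp only [gS, Fintype.linearCombination_apply, Finset.smul_sum]
    exact Finset.sum_congr rfl fun i _ => by rw [hcomm, h]
  have key1 : ∀ (a b : ℤ) (v : Fin k → ℤ) (x : Fin m → L k),
      (xp (fr a b v) : L (k + 2)) • gS x = (xp v : L k) • gS x := by
    intro a b v x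
    have h1 : fr a b v = fr 0 0 v + (a • fr 1 0 (0 : Fin k → ℤ) + b • fr 0 1 (0 : Fin k → ℤ)) := by
      rw [r3m_smul, r3m_smul, ← r3m_add, ← r3m_add]
      simp
    rw [h1, xp_add, mul_smul, xp_add, mul_smul, r3m_fix _ _ (y1C _ y2S x),
      r3m_fix _ _ (y1C _ y1S x), hsx]
  have key2 : ∀ (a b : ℤ) (v : Fin k → ℤ) (i : Fin m),
      (xp (fr a b v) : L (k + 2)) • p i =
        (xp v : L k) • (p i + gS (a • Pi.single i 1 + b • (mat k m A).mulVec (Pi.single i 1))) := by
    intro a b v i
    have h1 : fr a b v = fr 0 0 v + (a • fr 1 0 (0 : Fin k → ℤ) + b • fr 0 1 (0 : Fin k → ℤ)) := by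
      rw [r3m_smul, r3m_smul, ← r3m_add, ← r3m_add]
      simp
    rw [h1, xp_add, mul_smul, xp_add, mul_smul, r3m_unip _ _ _ (y2P i) (y1C _ y2S _), smul_add,
      r3m_unip _ _ _ (y1P i) (y1S i), ← map_zsmul gS, r3m_fix _ _ (y1C _ y1S _), hsx, map_add,
      map_zsmul gS b, map_zsmul gS a, hgS, add_assoc]
  let g : (Fin m → L k) × (Fin m → L k) →+ PM (k + 2) (2 * m) R :=
    (gP.coprod gS).toAddMonoidHom
  have hg : ∀ x, g x = gP x.1 + gS x.2 := fun x => rfl
  have hgf : ∀ n, g (f n) = n := by
    intro n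
    refine DFunLike.congr_fun (pm_ext (g.comp f) (AddMonoidHom.id _) ?_) n
    intro w i hi
    change g (f ((xp w : L (k + 2)) • gen i)) = (xp w : L (k + 2)) • gen i
    rw [hf2, hf1 i hi, ← r3m_eta w]
    rcases Nat.even_or_odd' i with ⟨j, rfl | rfl⟩
    · have hj : j < m := by omega
      rw [r3m_be0 k m j hj, r3m_act_P, hg]
      simp only
      rw [map_smul, map_smul, hgP, ← smul_add]
      exact (key2 _ _ _ ⟨j, hj⟩).symm
    · have hj : j < m := by omega
      rw [r3m_be1 k m j hj, r3m_act_S, hg]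
      simp only
      rw [map_zero, zero_add, map_smul, ← key1 (w 0) (w 1), hgS]
  have hfl : ∀ (a : L k) (n : PM (k + 2) (2 * m) R), f (a • n) = a • f n := by
    intro a n
    refine L_induction (motive := fun a => f (a • n) = a • f n) a ?_ ?_ ?_ ?_
    · rw [zero_smul, zero_smul, map_zero]
    · intro a b ha hb
      rw [add_smul, map_add, ha, hb, add_smul]
    · intro a ha
      rw [neg_smul, map_neg, ha, neg_smul]
    · intro v
      rw [hsx, hf2]
      refine Prod.ext rfl ?_
      change (xp v : L k) • ((f n).2 + (0 : ℤ) • (f n).1 + (0 : ℤ) • (mat k m A).mulVec (f n).1) =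
        (xp v : L k) • (f n).2
      rw [zero_smul, zero_smul, add_zero, add_zero]
  let f' : PM (k + 2) (2 * m) R →ₗ[L k] (Fin m → L k) × (Fin m → L k) :=
    { toFun := f
      map_add' := map_add f
      map_smul' := hfl }
  have hfg : ∀ x, f (g x) = x := by
    intro x
    have h1 : f'.comp gP = LinearMap.inl (L k) _ _ := by
      refine (Pi.basisFun (L k) (Fin m)).ext fun i => ?_
      rw [Pi.basisFun_apply, LinearMap.comp_apply, hgP]
      change f (gen (2 * i)) = _
      rw [hf1 _ (by omega), r3m_be0 k m i i.2]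
      rfl
    have h2 : f'.comp gS = LinearMap.inr (L k) _ _ := by
      refine (Pi.basisFun (L k) (Fin m)).ext fun i => ?_
      rw [Pi.basisFun_apply, LinearMap.comp_apply, hgS]
      change f (gen (2 * i + 1)) = _
      rw [hf1 _ (by omega), r3m_be1 k m i i.2]
      rfl
    rw [hg, map_add]
    have h3 : f (gP x.1) = (x.1, 0) := DFunLike.congr_fun h1 x.1
    have h4 : f (gS x.2) = (0, x.2) := DFunLike.congr_fun h2 x.2
    rw [h3, h4]
    simp
  refine ⟨{ toFun := f, invFun := g, left_inv := hgf, right_inv := hfg, map_add' := map_add f },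
    fun a b v n => ?_⟩
  exact hf2 (fr a b v) n

end Pool.Agent.MET
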