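import Pool.Agent.Lib_helper24.MET.SIM
import Pool.Agent.Lib_helper81.MET.R3m

set_option autoImplicit false

/-! Block R3 of project MET (MP_760942_al): similarity of matrices as framed isomorphism. -/

namespace Pool.Agent.MET

/-- the action of a monomial on the model -/
noncomputable def r3act {k m : ℕ} (B : Matrix (Fin m) (Fin m) (L k)) (a b : ℤ)
    (v : Fin k → ℤ) (n : (Fin m → L k) × (Fin m → L k)) : (Fin m → L k) × (Fin m → L k) :=
  ((xp v : L k) • n.1, (xp v : L k) • (n.2 + a • n.1 + b • B.mulVec n.1))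

theorem r3_T1 {k m : ℕ} (B : Matrix (Fin m) (Fin m) (L k)) (n : (Fin m → L k) × (Fin m → L k)) :
    r3act B 1 0 0 n - n = (0, n.1) := by
  obtain ⟨p, q⟩ := n
  simp [r3act, xp_zero]

theorem r3_T2 {k m : ℕ} (B : Matrix (Fin m) (Fin m) (L k)) (n : (Fin m → L k) × (Fin m → L k)) :
    r3act B 0 1 0 n - n = (0, B.mulVec n.1) := by
  obtain ⟨p, q⟩ := n
  simp [r3act, xp_zero]

theorem r3_core {k m : ℕ} (A B : Matrix (Fin m) (Fin m) (L k))
    (g : (Fin m → L k) × (Fin m → L k) ≃+ (Fin m → L k) × (Fin m → L k))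
    (σ : (Fin k → ℤ) ≃+ (Fin k → ℤ))
    (h : ∀ s t v n, g (r3act A s t v n) = r3act B s t (σ v) (g n)) :
    ∃ Φ : (Fin m → L k) ≃+ (Fin m → L k),
      (∀ (v : Fin k → ℤ) (x : Fin m → L k), Φ ((xp v : L k) • x) = (xp (σ v) : L k) • Φ x) ∧
      ∀ x : Fin m → L k, Φ (A.mulVec x) = B.mulVec (Φ x) := by
  have h1 : ∀ n, g (0, n.1) = (0, (g n).1) := fun n => by
    rw [← r3_T1 A n, map_sub, h, map_zero, r3_T1]
  have h2 : ∀ n, g (0, A.mulVec n.1) = (0, B.mulVec (g n).1) := fun n => by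
    rw [← r3_T2 A n, map_sub, h, map_zero, r3_T2]
  let f : (Fin m → L k) →+ (Fin m → L k) := AddMonoidHom.mk' (fun p => (g (p, 0)).1) fun p q => by
    have h3 : (p + q, (0 : Fin m → L k)) = (p, 0) + (q, 0) := by simp
    rw [h3, map_add]
    rfl
  have hf : ∀ p, f p = (g (p, 0)).1 := fun p => rfl
  have h4 : ∀ p, g (0, p) = (0, f p) := fun p => h1 (p, 0)
  have hbij : Function.Bijective f := by
    constructor
    · rw [injective_iff_map_eq_zero]
      intro p hp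
      have h5 := h4 p
      rw [hp] at h5
      have h6 : ((0 : Fin m → L k), p) = 0 := by
        rw [← g.map_eq_zero_iff]
        exact h5
      exact congrArg Prod.snd h6
    · intro q
      obtain ⟨n, hn⟩ := g.surjective (q, 0)
      refine ⟨n.1, ?_⟩
      have h5 := h1 n
      rw [hn, h4] at h5
      exact congrArg Prod.snd h5
  refine ⟨AddEquiv.ofBijective f hbij, fun v x => ?_, fun x => ?_⟩
  · change f ((xp v : L k) • x) = (xp (σ v) : L k) • f x
    have h5 := h 0 0 v (x, 0)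
    have h6 : r3act A 0 0 v (x, 0) = ((xp v : L k) • x, 0) := by simp [r3act]
    rw [h6] at h5
    rw [hf, h5]
    rfl
  · change f (A.mulVec x) = B.mulVec (f x)
    have h5 := h2 (x, 0)
    simp only at h5
    rw [h4] at h5
    exact congrArg Prod.snd h5

theorem r3_key (k m : ℕ) (A B : Ent) :
    FrIso (simFr k m A, simFr k m B) ↔
      ∃ (σ : (Fin k → ℤ) ≃+ (Fin k → ℤ))
        (φ : PM (k + 2) (2 * m) (simFr k m A).2.2 ≃+ PM (k + 2) (2 * m) (simFr k m B).2.2),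
        ∀ (s t : ℤ) (v : Fin k → ℤ) (n : PM (k + 2) (2 * m) (simFr k m A).2.2),
          φ ((xp (fr s t v) : L (k + 2)) • n) = (xp (fr s t (σ v)) : L (k + 2)) • φ n :=
  Iff.rfl

/-- R3 (from SIM, R3m) -/
theorem r3 (p : SCode) : Sim p ↔ FrIso (simFr p.1 p.2.1 p.2.2.1, simFr p.1 p.2.1 p.2.2.2) := by
  rw [sim_iff]
  obtain ⟨k, m, A, B⟩ := p
  obtain ⟨Φ, hΦ⟩ := simFr_model k m A
  obtain ⟨Φ', hΦ'⟩ := simFr_model k m B
  refine Iff.trans ?_ (r3_key k m A B).symm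
  constructor
  · rintro ⟨σ, ψ, hψ1, hψ2⟩
    change (Fin k → ℤ) ≃+ (Fin k → ℤ) at σ
    change (Fin m → L k) ≃+ (Fin m → L k) at ψ
    let e : (Fin m → L k) × (Fin m → L k) ≃+ (Fin m → L k) × (Fin m → L k) := ψ.prodCongr ψ
    have he : ∀ n, e n = (ψ n.1, ψ n.2) := fun n => rfl
    refine ⟨σ, (Φ.trans e).trans Φ'.symm, fun s t v n => ?_⟩
    change Φ'.symm (e (Φ ((xp (fr s t v) : L (k + 2)) • n))) =
      (xp (fr s t (σ v)) : L (k + 2)) • Φ'.symm (e (Φ n))
    rw [AddEquiv.symm_apply_eq, hΦ, hΦ', AddEquiv.apply_symm_apply, he, he]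
    have h1 : ψ ((xp v : L k) • (Φ n).1) = (xp (σ v) : L k) • ψ (Φ n).1 := hψ1 v _
    have h2 : ψ ((xp v : L k) • ((Φ n).2 + s • (Φ n).1 + t • (mat k m A).mulVec (Φ n).1)) =
        (xp (σ v) : L k) • ψ ((Φ n).2 + s • (Φ n).1 + t • (mat k m A).mulVec (Φ n).1) := hψ1 v _
    have h3 : ψ ((mat k m A).mulVec (Φ n).1) = (mat k m B).mulVec (ψ (Φ n).1) := hψ2 _
    simp only [h1, h2, map_add, map_zsmul, h3]
  · rintro ⟨σ, φ, hφ⟩
    obtain ⟨ψ, h1, h2⟩ := r3_core (mat k m A) (mat k m B) ((Φ.symm.trans φ).trans Φ') σ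
      fun s t v n => by
        change Φ' (φ (Φ.symm (r3act (mat k m A) s t v n))) =
          r3act (mat k m B) s t (σ v) (Φ' (φ (Φ.symm n)))
        have h1 : Φ.symm (r3act (mat k m A) s t v n) =
            (xp (fr s t v) : L (k + 2)) • Φ.symm n := by
          rw [AddEquiv.symm_apply_eq, hΦ, AddEquiv.apply_symm_apply]
          rfl
        rw [h1, hφ, hΦ']
        rfl
    exact ⟨σ, ψ, h1, h2⟩

end Pool.Agent.MET
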