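import Pool.Agent.Lib_helper53.MET.Base
import Pool.Agent.Lib_helper66.MET.R4s
import Pool.Agent.Lib_helper55.MET.R4m

set_option autoImplicit false

/-! Block R4 of project MET (MP_760942_al): isomorphism of modules over `L_k` as framed
isomorphism. -/

namespace Pool.Agent.MET

/-- the action of a monomial on the model -/
noncomputable def r4act {k : ℕ} {M : Type*} [AddCommGroup M] [Module (L k) M] (s t : ℤ)
    (v : Fin k → ℤ) (n : M × L k × L k) : M × L k × L k :=
  ((xp v : L k) • n.1, xp v * n.2.1, xp v * (n.2.2 + s • n.2.1 + t • (FF k * n.2.1)))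

theorem r4_T1 {k : ℕ} {M : Type*} [AddCommGroup M] [Module (L k) M] (n : M × L k × L k) :
    r4act 1 0 0 n - n = (0, 0, n.2.1) := by
  obtain ⟨m, p, q⟩ := n
  simp [r4act, xp_zero]

theorem r4_T2 {k : ℕ} {M : Type*} [AddCommGroup M] [Module (L k) M] (n : M × L k × L k) :
    r4act 0 1 0 n - n = (0, 0, FF k * n.2.1) := by
  obtain ⟨m, p, q⟩ := n
  simp [r4act, xp_zero]

theorem r4_step {k : ℕ} {M M' : Type*} [AddCommGroup M] [Module (L k) M] [AddCommGroup M']
    [Module (L k) M'] (g : M × L k × L k ≃+ M' × L k × L k) (σ : (Fin k → ℤ) ≃+ (Fin k → ℤ))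
    (h : ∀ s t v n, g (r4act s t v n) = r4act s t (σ v) (g n)) (n : M × L k × L k) :
    g (0, 0, n.2.1) = (0, 0, (g n).2.1) ∧ g (0, 0, FF k * n.2.1) = (0, 0, FF k * (g n).2.1) := by
  constructor
  · rw [← r4_T1 n, map_sub, h, map_zero, r4_T1]
  · rw [← r4_T2 n, map_sub, h, map_zero, r4_T2]

theorem r4_back {k : ℕ} {M M' : Type*} [AddCommGroup M] [Module (L k) M] [AddCommGroup M']
    [Module (L k) M'] (g : M × L k × L k ≃+ M' × L k × L k) (σ : (Fin k → ℤ) ≃+ (Fin k → ℤ))
    (h : ∀ s t v n, g (r4act s t v n) = r4act s t (σ v) (g n)) (m : M) :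
    (g.symm ((g (m, 0, 0)).1, 0, 0)).1 = m := by
  have h1 : (g (m, 0, 0)).2.1 = 0 := by
    have := (r4_step g σ h (m, 0, 0)).1
    have h2 : g ((0 : M), (0 : L k), (0 : L k)) = 0 := map_zero g
    simp only at this
    rw [h2] at this
    exact (congrArg (fun x => x.2.2) this).symm
  have h' : ∀ s t v n, g.symm (r4act s t v n) = r4act s t (σ.symm v) (g.symm n) := by
    intro s t v n
    rw [AddEquiv.symm_apply_eq, h, AddEquiv.apply_symm_apply, AddEquiv.apply_symm_apply]
  have h3 : ((g (m, 0, 0)).1, (0 : L k), (0 : L k)) =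
      g (m, 0, 0) - ((0 : M'), (0 : L k), (g (m, 0, 0)).2.2) := by
    refine Prod.ext ?_ (Prod.ext ?_ ?_)
    · simp
    · simp [h1]
    · simp
  have h4 := (r4_step g.symm σ.symm h' ((0 : M'), (g (m, 0, 0)).2.2, (0 : L k))).1
  simp only at h4
  rw [h3, map_sub, AddEquiv.symm_apply_apply, h4]
  simp

/-- a map which commutes with the monomials is linear -/
theorem r4_lin {k : ℕ} {M M' : Type*} [AddCommGroup M] [Module (L k) M] [AddCommGroup M']
    [Module (L k) M'] (f : M → M') (hadd : ∀ m m', f (m + m') = f m + f m')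
    (h : ∀ (v : Fin k → ℤ) (m : M), f ((xp v : L k) • m) = (xp v : L k) • f m) (a : L k) (m : M) :
    f (a • m) = a • f m := by
  have h0 : f 0 = 0 := by
    have := hadd 0 0
    rw [add_zero] at this
    exact left_eq_add.mp this
  have hn : ∀ m, f (-m) = -f m := by
    intro m
    have := hadd m (-m)
    rw [add_neg_cancel, h0] at this
    exact (neg_eq_of_add_eq_zero_right this.symm).symm
  refine L_induction (motive := fun a => f (a • m) = a • f m) a ?_ ?_ ?_ (fun v => h v m)
  · simp only [zero_smul]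
    exact h0
  · intro a b ha hb
    rw [add_smul, hadd, ha, hb, add_smul]
  · intro a ha
    rw [neg_smul, hn, ha, neg_smul]

theorem r4_core {k : ℕ} {M M' : Type*} [AddCommGroup M] [Module (L k) M] [AddCommGroup M']
    [Module (L k) M'] (g : M × L k × L k ≃+ M' × L k × L k) (σ : (Fin k → ℤ) ≃+ (Fin k → ℤ))
    (h : ∀ s t v n, g (r4act s t v n) = r4act s t (σ v) (g n)) : Nonempty (M ≃ₗ[L k] M') := by
  -- the map on the third component
  let γ : L k → L k := fun p => (g (0, p, 0)).2.1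
  have hγ : ∀ p, g (0, 0, p) = (0, 0, γ p) := fun p => (r4_step g σ h ((0 : M), p, (0 : L k))).1
  have hγF : ∀ p, γ (FF k * p) = FF k * γ p := by
    intro p
    have h1 := (r4_step g σ h ((0 : M), p, (0 : L k))).2
    have h2 := hγ (FF k * p)
    rw [h2] at h1
    exact congrArg (fun x => x.2.2) h1
  have hadd : ∀ p q, γ (p + q) = γ p + γ q := by
    intro p q
    have h1 : ((0 : M), p + q, (0 : L k)) = (0, p, 0) + (0, q, 0) := by simp
    simp only [γ]
    rw [h1, map_add]
    rfl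
  have h0 : γ 0 = 0 := by
    have := hadd 0 0
    rw [add_zero] at this
    exact left_eq_add.mp this
  have hn : ∀ p, γ (-p) = -γ p := by
    intro p
    have := hadd p (-p)
    rw [add_neg_cancel, h0] at this
    exact (neg_eq_of_add_eq_zero_right this.symm).symm
  have hx : ∀ (v : Fin k → ℤ) (p : L k), γ (xp v * p) = xp (σ v) * γ p := by
    intro v p
    have h1 := h 0 0 v ((0 : M), p, (0 : L k))
    have h2 : r4act 0 0 v ((0 : M), p, (0 : L k)) = (0, xp v * p, 0) := by simp [r4act]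
    rw [h2] at h1
    simp only [γ]
    rw [h1]
    rfl
  have htw : ∀ a p : L k, γ (a * p) = tw σ a * γ p := by
    intro a p
    refine L_induction (motive := fun a => γ (a * p) = tw σ a * γ p) a ?_ ?_ ?_ ?_
    · simp only [zero_mul, map_zero]
      exact h0
    · intro a b ha hb
      rw [add_mul, hadd, ha, hb, map_add, add_mul]
    · intro a ha
      rw [neg_mul, hn, ha, map_neg, neg_mul]
    · intro v
      rw [hx, tw_xp]
  obtain ⟨n, hn1⟩ := g.surjective ((0 : M'), (1 : L k), (0 : L k))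
  have hγ1 : γ n.2.1 = 1 := by
    have h1 := (r4_step g σ h n).1
    rw [hγ, hn1] at h1
    exact congrArg (fun x => x.2.2) h1
  have hF : tw σ (FF k) = FF k := by
    have := hγF n.2.1
    rw [htw, hγ1, mul_one, mul_one] at this
    exact this
  have hσ := ff_rigid σ hF
  have h' : ∀ s t v n, g.symm (r4act s t v n) = r4act s t (σ.symm v) (g.symm n) := by
    intro s t v n
    rw [AddEquiv.symm_apply_eq, h, AddEquiv.apply_symm_apply, AddEquiv.apply_symm_apply]
  have hf1 : ∀ m m' : M, (g (m + m', 0, 0)).1 = (g (m, 0, 0)).1 + (g (m', 0, 0)).1 := by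
    intro m m'
    have h1 : (m + m', (0 : L k), (0 : L k)) = (m, 0, 0) + (m', 0, 0) := by simp
    rw [h1, map_add]
    rfl
  have hf2 : ∀ (v : Fin k → ℤ) (m : M),
      (g ((xp v : L k) • m, 0, 0)).1 = (xp v : L k) • (g (m, 0, 0)).1 := by
    intro v m
    have h1 := h 0 0 v (m, (0 : L k), (0 : L k))
    have h2 : r4act 0 0 v (m, (0 : L k), (0 : L k)) = ((xp v : L k) • m, 0, 0) := by simp [r4act]
    rw [h2, hσ] at h1
    rw [h1]
    rfl
  refine ⟨{ toFun := fun m => (g (m, 0, 0)).1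
            map_add' := hf1
            map_smul' := fun a m => r4_lin (fun m => (g (m, 0, 0)).1) hf1 hf2 a m
            invFun := fun m => (g.symm (m, 0, 0)).1
            left_inv := fun m => r4_back g σ h m
            right_inv := fun m => ?_ }⟩
  have := r4_back g.symm σ.symm h' m
  simpa using this

theorem r4_key (k b b' : ℕ) (R R' : List Rel) :
    FrIso (linFr k b R, linFr k b' R') ↔
      ∃ (σ : (Fin k → ℤ) ≃+ (Fin k → ℤ))
        (φ : PM (k + 2) (b + 2) (linFr k b R).2.2 ≃+ PM (k + 2) (b' + 2) (linFr k b' R').2.2),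
        ∀ (s t : ℤ) (v : Fin k → ℤ) (m : PM (k + 2) (b + 2) (linFr k b R).2.2),
          φ ((xp (fr s t v) : L (k + 2)) • m) = (xp (fr s t (σ v)) : L (k + 2)) • φ m :=
  Iff.rfl

/-- R4 (from R4s, R4m) -/
theorem r4 (p : ℕ × (ℕ × List Rel) × (ℕ × List Rel)) :
    LinIso p ↔ FrIso (linFr p.1 p.2.1.1 p.2.1.2, linFr p.1 p.2.2.1 p.2.2.2) := by
  obtain ⟨k, ⟨b, R⟩, b', R'⟩ := p
  obtain ⟨Φ, hΦ⟩ := linFr_model k b R
  obtain ⟨Φ', hΦ'⟩ := linFr_model k b' R'
  refine Iff.trans ?_ (r4_key k b b' R R').symm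
  constructor
  · rintro ⟨ψ⟩
    change PM k b R ≃ₗ[L k] PM k b' R' at ψ
    let e : PM k b R × L k × L k ≃+ PM k b' R' × L k × L k :=
      ψ.toAddEquiv.prodCongr (AddEquiv.refl _)
    refine ⟨AddEquiv.refl _, (Φ.trans e).trans Φ'.symm, fun s t v n => ?_⟩
    change Φ'.symm (e (Φ ((xp (fr s t v) : L (k + 2)) • n))) =
      (xp (fr s t v) : L (k + 2)) • Φ'.symm (e (Φ n))
    rw [AddEquiv.symm_apply_eq, hΦ, hΦ', AddEquiv.apply_symm_apply]
    refine Prod.ext ?_ (Prod.ext rfl rfl)
    exact ψ.map_smul _ _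
  · rintro ⟨σ, φ, hφ⟩
    refine r4_core ((Φ.symm.trans φ).trans Φ') σ fun s t v n => ?_
    change Φ' (φ (Φ.symm (r4act s t v n))) = r4act s t (σ v) (Φ' (φ (Φ.symm n)))
    have h1 : Φ.symm (r4act s t v n) = (xp (fr s t v) : L (k + 2)) • Φ.symm n := by
      rw [AddEquiv.symm_apply_eq, hΦ, AddEquiv.apply_symm_apply]
      rfl
    rw [h1, hφ, hΦ']
    rfl

end Pool.Agent.MET
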